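import Pool.Agent.H56.CF.Targets

/-!
Row RNFB of the board cfm_modules (`MP_347b49_nt`): the number of characters with the same values at
the principal ideals.
-/

set_option autoImplicit false

open NumberField Module
open scoped nonZeroDivisors

namespace Pool.Agent.H55.CF

open Pool.Agent.H28.RC Pool.Agent.H91.CF Pool.Agent.H24.Cls Pool.Agent.H56.CF
open Pool.Agent.H31.CN (rc)

section

variable {K : Type} [Field K] [NumberField K]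

omit [NumberField K] in
theorem rcc_ext {χ χ' : RCC K} (h1 : χ.f = χ'.f) (h2 : χ.S = χ'.S) (h3 : χ.ψ = χ'.ψ) : χ = χ' := by
  cases χ
  cases χ'
  subst h1 h2 h3
  rfl

theorem inj_of {f : ℕ} {S : Finset (RP K)} {A : Set (RCC K)} (χ₀ : RCC K)
    (hA : ∀ χ ∈ A, χ ∈ RQ K f ∧ χ.S = S)
    (Φ : RCC K → (ClassGroup (𝓞 K) →* ℂˣ))
    (hΦ : ∀ χ ∈ A, ∀ I : (Ideal (𝓞 K))⁰,
      χ.ψ I = χ₀.ψ I * ((Φ χ (ClassGroup.mk0 I) : ℂˣ) : ℂ)) : Set.InjOn Φ A := by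
  intro χ hχ χ' hχ' e
  refine rcc_ext ?_ ?_ ?_
  · rw [(hA χ hχ).1.2, (hA χ' hχ').1.2]
  · rw [(hA χ hχ).2, (hA χ' hχ').2]
  · funext I
    by_cases hI : I = ⊥
    · rw [hI, χ.map_bot, χ'.map_bot]
    · have h1 := hΦ χ hχ ⟨I, mem_nonZeroDivisors_iff_ne_zero.mpr hI⟩
      have h2 := hΦ χ' hχ' ⟨I, mem_nonZeroDivisors_iff_ne_zero.mpr hI⟩
      rw [e] at h1
      exact h1.trans h2.symm

end

/-- NFB -/
theorem pf_NFB (hC : T_COP) (hR : T_RAT) : T_NFB := by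
  classical
  intro K _ _ f hf S θ
  have hfin : Finite (ClassGroup (𝓞 K) →* ℂˣ) := inferInstance
  have hcard : Nat.card (ClassGroup (𝓞 K) →* ℂˣ) = classNumber K := by
    rw [CommGroup.card_monoidHom_of_hasEnoughRootsOfUnity]
    exact Nat.card_eq_fintype_card
  have hkey : ∀ χ₀ : RCC K, χ₀ ∈ RQ K f → χ₀.S = S → Th K f S χ₀.ψ θ →
      ∃ Φ : RCC K → (ClassGroup (𝓞 K) →* ℂˣ),
      ∀ χ : RCC K, (χ ∈ RQ K f ∧ χ.S = S ∧ Th K f S χ.ψ θ) → ∀ I : (Ideal (𝓞 K))⁰,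
        χ.ψ I = χ₀.ψ I * ((Φ χ (ClassGroup.mk0 I) : ℂˣ) : ℂ) := by
    intro χ₀ h0 h0S h0T
    have h1 : ∀ χ : RCC K, ∃ φ : ClassGroup (𝓞 K) →* ℂˣ,
        (χ ∈ RQ K f ∧ χ.S = S ∧ Th K f S χ.ψ θ) → ∀ I : (Ideal (𝓞 K))⁰,
          χ.ψ I = χ₀.ψ I * ((φ (ClassGroup.mk0 I) : ℂˣ) : ℂ) := by
      intro χ
      by_cases hχ : χ ∈ RQ K f ∧ χ.S = S ∧ Th K f S χ.ψ θ
      · obtain ⟨φ, hφ⟩ := hR K f hf S θ χ₀ χ h0 hχ.1 h0S hχ.2.1 h0T hχ.2.2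
        exact ⟨φ, fun _ => hφ⟩
      · exact ⟨1, fun h => absurd h hχ⟩
    choose Φ hΦ using h1
    exact ⟨Φ, hΦ⟩
  have hA : {χ : RCC K | χ ∈ RQ K f ∧ χ.S = S ∧ Th K f S χ.ψ θ}.Finite ∧
      {χ : RCC K | χ ∈ RQ K f ∧ χ.S = S ∧ Th K f S χ.ψ θ}.ncard ≤ classNumber K := by
    rcases Set.eq_empty_or_nonempty {χ : RCC K | χ ∈ RQ K f ∧ χ.S = S ∧ Th K f S χ.ψ θ} with
      he | ⟨χ₀, h0⟩
    · rw [he]
      exact ⟨Set.finite_empty, by rw [Set.ncard_empty]; exact Nat.zero_le _⟩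
    · obtain ⟨Φ, hΦ⟩ := hkey χ₀ h0.1 h0.2.1 h0.2.2
      have hinj : Set.InjOn Φ {χ : RCC K | χ ∈ RQ K f ∧ χ.S = S ∧ Th K f S χ.ψ θ} :=
        inj_of (f := f) (S := S) χ₀ (fun χ hχ => ⟨hχ.1, hχ.2.1⟩) Φ hΦ
      refine ⟨Set.Finite.of_injOn (t := Set.univ) (fun _ _ => Set.mem_univ _) hinj
        Set.finite_univ, ?_⟩
      rw [← hcard, ← Set.ncard_univ]
      exact Set.ncard_le_ncard_of_injOn Φ (fun _ _ => Set.mem_univ _) hinj Set.finite_univ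
  refine ⟨hA.1, hA.2, ?_⟩
  rcases Set.eq_empty_or_nonempty
    {χ : RCC K | χ ∈ RQ K f ∧ ¬ NRe χ ∧ χ.S = S ∧ Th K f S χ.ψ θ} with he | ⟨χ₀, h0⟩
  · rw [he, Set.ncard_empty]
    exact Nat.zero_le _
  · obtain ⟨Φ, hΦ⟩ := hkey χ₀ h0.1 h0.2.2.1 h0.2.2.2
    have hinj : Set.InjOn Φ {χ : RCC K | χ ∈ RQ K f ∧ ¬ NRe χ ∧ χ.S = S ∧ Th K f S χ.ψ θ} :=
      inj_of (f := f) (S := S) χ₀ (fun χ hχ => ⟨hχ.1, hχ.2.2.1⟩) Φ
        fun χ hχ => hΦ χ ⟨hχ.1, hχ.2.2⟩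
    have hrc : rc K = {φ : ClassGroup (𝓞 K) →* ℂˣ | φ * φ = 1}.ncard := by
      unfold rc
      exact Nat.card_coe_set_eq {φ : ClassGroup (𝓞 K) →* ℂˣ | φ * φ = 1}
    rw [hrc]
    refine Set.ncard_le_ncard_of_injOn Φ (fun χ hχ => ?_) hinj (Set.toFinite _)
    show Φ χ * Φ χ = 1
    have hsq : ∀ χ : RCC K, χ ∈ RQ K f → ¬ NRe χ → ∀ I : (Ideal (𝓞 K))⁰,
        (I : Ideal (𝓞 K)) ⊔ Ideal.span {(f : 𝓞 K)} = ⊤ → χ.ψ I ^ 2 = 1 := by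
      intro χ hχ hn I hI
      unfold NRe at hn
      push Not at hn
      refine hn I ?_
      have h1 := χ.norm_one I (nonZeroDivisors.coe_ne_zero I) (by rw [hχ.2]; exact hI)
      refine pow_ne_zero 2 fun h2 => ?_
      rw [h2, norm_zero] at h1
      exact zero_ne_one h1
    refine MonoidHom.ext fun c => ?_
    obtain ⟨I, hI, hIf⟩ := hC K f hf c
    have h1 := hsq χ hχ.1 hχ.2.1 I hIf
    have h2 := hsq χ₀ h0.1 h0.2.1 I hIf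
    have h3 := hΦ χ ⟨hχ.1, hχ.2.2⟩ I
    rw [hI] at h3
    rw [h3, mul_pow, h2, one_mul] at h1
    rw [MonoidHom.mul_apply, MonoidHom.one_apply]
    refine Units.ext ?_
    rw [Units.val_mul, Units.val_one, ← pow_two]
    exact h1

end Pool.Agent.H55.CF
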