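import Pool.Agent.H56.CF.Targets

/-!
Row RNRF of the board cfm_modules (`MP_347b49_nt`): the number of the characters of conductor `f`.
-/

set_option autoImplicit false

open NumberField Module
open scoped nonZeroDivisors

namespace Pool.Agent.H55.CF

open Pool.Agent.H28.RC Pool.Agent.H91.CF Pool.Agent.H24.Cls Pool.Agent.H56.CF
open Pool.Agent.H31.CN (rc)

theorem card_finset_RP {K : Type} [Field K] [NumberField K] (h : finrank ℚ K = 2) :
    Nat.card (Finset (RP K)) ≤ 4 := by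
  classical
  have h1 := InfinitePlace.card_add_two_mul_card_eq_rank K
  rw [h] at h1
  have h2 : Fintype.card (RP K) ≤ 2 := by
    have h3 : Fintype.card (RP K) = InfinitePlace.nrRealPlaces K := by
      unfold InfinitePlace.nrRealPlaces
      rfl
    omega
  rw [Nat.card_eq_fintype_card, Fintype.card_finset]
  calc 2 ^ Fintype.card (RP K) ≤ 2 ^ 2 := Nat.pow_le_pow_right (by norm_num) h2
    _ = 4 := by norm_num

theorem union_bound {ι α : Type} [Finite ι] (s : ι → Set α) (A : Set α) (m : ℕ)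
    (hA : A ⊆ ⋃ i, s i) (hs : ∀ i, (s i).Finite) (hm : ∀ i, (s i).ncard ≤ m) :
    A.Finite ∧ A.ncard ≤ Nat.card ι * m := by
  classical
  let _ := Fintype.ofFinite ι
  have hfin : (⋃ i, s i).Finite := Set.finite_iUnion hs
  refine ⟨hfin.subset hA, ?_⟩
  calc A.ncard ≤ (⋃ i, s i).ncard := Set.ncard_le_ncard hA hfin
    _ ≤ ∑ i, (s i).ncard := Set.ncard_iUnion_le_of_fintype s
    _ ≤ ∑ _i : ι, m := Finset.sum_le_sum fun i _ => hm i
    _ = Nat.card ι * m := by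
        rw [Finset.sum_const, Finset.card_univ, smul_eq_mul, Nat.card_eq_fintype_card]

/-- the characters of a finite commutative group -/
theorem hom_card (G : Type) [inst : Group G] (hc : ∀ a b : G, a * b = b * a) [Finite G] :
    Finite (G →* ℂˣ) ∧ Nat.card (G →* ℂˣ) = Nat.card G := by
  let _ : CommGroup G := { inst with mul_comm := hc }
  exact ⟨inferInstance, CommGroup.card_monoidHom_of_hasEnoughRootsOfUnity G ℂ⟩

theorem quot_comm {G : Type} [CommGroup G] (V : Subgroup G) (a b : G ⧸ V) : a * b = b * a := by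
  induction a using QuotientGroup.induction_on with | H x => ?_
  induction b using QuotientGroup.induction_on with | H y => ?_
  rw [← QuotientGroup.mk_mul, ← QuotientGroup.mk_mul, mul_comm]

/-- NRF -/
theorem pf_NRF (hV : T_NVF) (hT : T_NTH) (hF : T_NFB) : Pool.Agent.H91.CF.T_NRF := by
  classical
  intro f K _ _ hf h2
  obtain ⟨hfin, hcard⟩ := hV K h2 f hf
  have hphi : 0 < Nat.totient f := Nat.totient_pos.mpr hf
  obtain ⟨hfin2, e⟩ := @hom_card ((𝓞 K ⧸ Ideal.span {(f : 𝓞 K)})ˣ ⧸ VF K f) _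
    (quot_comm (VF K f)) hfin
  have hfinι : Finite (Finset (RP K) ×
      (((𝓞 K ⧸ Ideal.span {(f : 𝓞 K)})ˣ ⧸ VF K f) →* ℂˣ)) := inferInstance
  have hι : (Nat.card (Finset (RP K) ×
      (((𝓞 K ⧸ Ideal.span {(f : 𝓞 K)})ˣ ⧸ VF K f) →* ℂˣ)) : ℝ) ≤
      8 * ((f : ℝ) ^ 2 / Nat.totient f) := by
    rw [Nat.card_prod, e]
    push_cast
    have h4 : (Nat.card (Finset (RP K)) : ℝ) ≤ 4 := by exact_mod_cast card_finset_RP h2
    have h5 : (Nat.card ((𝓞 K ⧸ Ideal.span {(f : 𝓞 K)})ˣ ⧸ VF K f) : ℝ) ≤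
        (f : ℝ) ^ 2 / Nat.totient f := by
      rw [le_div_iff₀ (by exact_mod_cast hphi)]
      exact_mod_cast hcard
    calc _ ≤ 4 * ((f : ℝ) ^ 2 / Nat.totient f) :=
          mul_le_mul h4 h5 (Nat.cast_nonneg _) (by norm_num)
      _ ≤ 8 * ((f : ℝ) ^ 2 / Nat.totient f) := by
          have : 0 ≤ (f : ℝ) ^ 2 / Nat.totient f := by positivity
          linarith
  have hA := union_bound (fun i : Finset (RP K) ×
      (((𝓞 K ⧸ Ideal.span {(f : 𝓞 K)})ˣ ⧸ VF K f) →* ℂˣ) =>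
      {χ : RCC K | χ ∈ RQ K f ∧ χ.S = i.1 ∧ Th K f i.1 χ.ψ i.2}) (RQ K f) (classNumber K)
      (fun χ hχ => by
        obtain ⟨θ, hθ⟩ := hT K f hf χ hχ
        exact Set.mem_iUnion.mpr ⟨(χ.S, θ), hχ, rfl, hθ⟩)
      (fun i => (hF K f hf i.1 i.2).1) (fun i => (hF K f hf i.1 i.2).2.1)
  have hB := union_bound (fun i : Finset (RP K) ×
      (((𝓞 K ⧸ Ideal.span {(f : 𝓞 K)})ˣ ⧸ VF K f) →* ℂˣ) =>
      {χ : RCC K | χ ∈ RQ K f ∧ ¬ NRe χ ∧ χ.S = i.1 ∧ Th K f i.1 χ.ψ i.2})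
      {χ : RCC K | χ ∈ RQ K f ∧ ¬ NRe χ} (rc K)
      (fun χ hχ => by
        obtain ⟨θ, hθ⟩ := hT K f hf χ hχ.1
        exact Set.mem_iUnion.mpr ⟨(χ.S, θ), hχ.1, hχ.2, rfl, hθ⟩)
      (fun i => (hF K f hf i.1 i.2).1.subset fun χ hχ => ⟨hχ.1, hχ.2.2⟩)
      (fun i => (hF K f hf i.1 i.2).2.2)
  refine ⟨hA.1, ?_, ?_⟩
  · calc (nn K f : ℝ) ≤ (Nat.card (Finset (RP K) ×
          (((𝓞 K ⧸ Ideal.span {(f : 𝓞 K)})ˣ ⧸ VF K f) →* ℂˣ)) : ℝ) * classNumber K := by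
          exact_mod_cast hA.2
      _ ≤ (8 * ((f : ℝ) ^ 2 / Nat.totient f)) * classNumber K :=
          mul_le_mul_of_nonneg_right hι (Nat.cast_nonneg _)
      _ = _ := by ring
  · calc (rr K f : ℝ) ≤ (Nat.card (Finset (RP K) ×
          (((𝓞 K ⧸ Ideal.span {(f : 𝓞 K)})ˣ ⧸ VF K f) →* ℂˣ)) : ℝ) * rc K := by
          exact_mod_cast hB.2
      _ ≤ (8 * ((f : ℝ) ^ 2 / Nat.totient f)) * rc K :=
          mul_le_mul_of_nonneg_right hι (Nat.cast_nonneg _)
      _ = _ := by ring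

end Pool.Agent.H55.CF
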