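import Pool.Agent.H91.CF.TA

/-!
Row ALPF of the board cfm_modules (`MP_347b49_nt`): the means at all small primes together.
-/

set_option autoImplicit false

open MeasureTheory Set Filter
open scoped Real

namespace Pool.Agent.H55.CF

open Pool.Agent.H31.CN Pool.Agent.H91.CF
open Pool.Agent.H96.CN (Av Per2)

theorem qlp_coprime (f : ℕ) {p r : ℕ} (hp : p.Prime) (hr : r.Prime) (h : p ≠ r) :
    Nat.Coprime (qlp f p) (qlp f r) := by
  have h1 : ∀ s : ℕ, s.Prime → ∃ n, qlp f s = s ^ n := by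
    intro s _
    unfold qlp ql
    split_ifs with h1 h2
    · exact ⟨_, rfl⟩
    · subst h2
      exact ⟨5, by norm_num⟩
    · exact ⟨2, rfl⟩
  obtain ⟨n, hn⟩ := h1 p hp
  obtain ⟨m, hm⟩ := h1 r hr
  rw [hn, hm]
  exact Nat.Coprime.pow n m ((Nat.coprime_primes hp hr).mpr h)

theorem qlp_pos (f : ℕ) {p : ℕ} (hp : p.Prime) : 0 < qlp f p := by
  unfold qlp
  split_ifs
  · exact pow_pos hp.pos _
  · exact Pool.Agent.H96.CN.ql_pos hp

/-- LPf -/
theorem pf_LPf (hWFE : T_WFE) (hWPR : T_WPR) : T_LPf := by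
  intro N f lam hf hN hN2 hsq hfN n₁ n₂ d h₁ h₂ hd e A he hA
  have h := (Pool.Agent.H96.CN.Av_prod N.primeFactors (qlp f)
    (fun p hp => qlp_pos f (Nat.prime_of_mem_primeFactors hp))
    (fun p hp r hr hpr => qlp_coprime f (Nat.prime_of_mem_primeFactors hp)
      (Nat.prime_of_mem_primeFactors hr) hpr)
    (fun p => wlo f p (lam p) (sta f n₁ n₂ d p) e A)
    (fun p hp => hWPR f p (lam p) _ e A hf (Nat.prime_of_mem_primeFactors hp))).1
  rw [← h]
  unfold wbd Av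
  congr 1
  refine Finset.sum_congr rfl fun B _ => Finset.sum_congr rfl fun C _ => ?_
  show _ = ∏ p ∈ N.primeFactors, wlo f p (lam p) (sta f n₁ n₂ d p) e A (B : ℤ) (C : ℤ)
  rw [← hWFE N f lam n₁ n₂ d e A B C hf hN hN2 hsq hfN h₁ h₂ hd he hA]
  by_cases hc : Nat.Coprime C d
  · rw [if_pos hc, if_pos (Nat.isCoprime_iff_coprime.mpr hc)]
  · rw [if_neg hc, if_neg (fun h' => hc (Nat.isCoprime_iff_coprime.mp h'))]

end Pool.Agent.H55.CF
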