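import Pool.Agent.H91.CF.TA

/-!
Row ATPR of the board cfm_modules (`MP_347b49_nt`): the type is a periodic function.
-/

set_option autoImplicit false

open MeasureTheory Set Filter
open scoped Real

namespace Pool.Agent.H55.CF

open Pool.Agent.H31.CN Pool.Agent.H91.CF
open Pool.Agent.H96.CN (Av Per2)

theorem chi_mem {p : ℕ} (hp : p.Prime) (h2 : p ≠ 2) (D : ℤ) :
    (nrt p 1 0 D : ℤ) - 1 ∈ ({-1, 0, 1} : Finset ℤ) := by
  have : Fact p.Prime := ⟨hp⟩
  have e : (nrt p 1 0 D : ℤ) - 1 = chi p D := by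
    unfold chi
    rw [if_neg h2]
  rw [e]
  by_cases h : (p : ℤ) ∣ D
  · rw [Pool.Agent.H96.CN.chi_zero p h2 h]
    simp
  · have h3 := Pool.Agent.H96.CN.chi_sq p h2 h
    have h5 : (chi p D - 1) * (chi p D + 1) = 0 := by linear_combination h3
    rcases mul_eq_zero.mp h5 with h4 | h4
    · rw [sub_eq_zero.mp h4]
      simp
    · rw [eq_neg_of_add_eq_zero_left h4]
      simp

/-- TPR -/
theorem pf_TPR : T_TPR := by
  intro p D D' hp hd
  by_cases h2 : p = 2
  · subst h2
    rw [if_pos rfl] at hd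
    norm_num at hd
    unfold ch gdp
    simp only [if_true]
    refine ⟨?_, ?_, ?_⟩
    · have e : D % 8 = D' % 8 := by omega
      rw [e]
    · omega
    · split_ifs <;> simp
  · rw [if_neg h2] at hd
    have hd1 : (p : ℤ) ∣ D - D' := (dvd_pow_self (p : ℤ) (by norm_num)).trans hd
    unfold ch gdp
    simp only [if_neg h2]
    refine ⟨?_, ?_, ?_⟩
    · rw [Pool.Agent.H96.CN.nrt_congr p (A := 1) (A' := 1) (B := 0) (B' := 0) (by simp) (by simp) hd1]
    · rw [dvd_iff_dvd_of_dvd_sub hd]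
    · exact chi_mem hp h2 D

end Pool.Agent.H55.CF
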