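import Pool.Agent.H95.CF.T3

/-!
Row PIDN of the board cfm_modules (`MP_347b49_nt`): the number of ideals of norm `n`.
-/

set_option autoImplicit false

open NumberField Module MeasureTheory Set Filter
open scoped nonZeroDivisors Real

namespace Pool.Agent.H55.CF

open Pool.Agent.H31.CN Pool.Agent.H65.CF Pool.Agent.H95.CF

theorem aI_one (K : Type) [Field K] [NumberField K] : aI K 1 = 1 := by
  unfold aI
  have : Unique {J : Ideal (𝓞 K) // Ideal.absNorm J = 1} :=
    { default := ⟨⊤, Ideal.absNorm_top⟩
      uniq := fun J => Subtype.ext (Ideal.absNorm_eq_one_iff.mp J.2) }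
  exact Nat.card_unique

/-- IDN -/
theorem pf_IDN (hIDP : T_IDP) (hCHD : T_CHD) (hCHM : T_CHM) : T_IDN := by
  intro D K _ _ hD hFd h2 hdisc n
  induction n using Nat.strong_induction_on with
  | _ n ih =>
    intro hn
    rcases Nat.lt_or_ge 1 n with h1 | h1
    · obtain ⟨p, hp, m, rfl⟩ := Nat.exists_prime_and_dvd h1.ne'
      have hm : 1 ≤ m := Nat.pos_of_ne_zero fun h => by
        rw [h, mul_zero] at h1
        omega
      have hlt : m < p * m := by
        have := hp.two_le
        nlinarith
      have e1 := hIDP D K hD hFd h2 hdisc p m hp hm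
      rw [hCHD D p m hp hm, ← ih m hlt hm]
      have e2 : (aI K (p * m) : ℝ) = (1 + ((ch p D : ℤ) : ℝ)) * (aI K m : ℝ) -
          ((ch p D : ℤ) : ℝ) * ((if p ∣ m then aI K (m / p) else 0 : ℕ) : ℝ) := by
        have := congrArg (fun z : ℤ => (z : ℝ)) e1
        push_cast at this ⊢
        exact this
      rw [e2]
      congr 2
      split_ifs with hpm
      · obtain ⟨c, rfl⟩ := hpm
        have hc : 1 ≤ c := Nat.pos_of_ne_zero fun h => by
          rw [h, mul_zero] at hm
          omega
        rw [Nat.mul_div_cancel_left _ hp.pos]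
        refine ih c ?_ hc
        have := hp.two_le
        nlinarith
      · simp
    · have : n = 1 := by omega
      subst this
      rw [aI_one]
      unfold aD
      rw [Nat.divisors_one, Finset.sum_singleton, hCHM.1]
      norm_num

end Pool.Agent.H55.CF
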